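import Pool.Agent.Q198.WeakBasis

set_option autoImplicit false

/-!
# MP_c12391_an, Q1: zero can be an almost preserved extreme point of the ball of an `ℓ_1`-sum without
being one for any summand
-/

namespace Pool.Agent.Results.MP_c12391_an.EuclideanSummands

open Filter Topology Pool.Agent.Q198.Weak

/-- The slice `S(C, f, α)`. -/
def slice {X : Type*} [NormedAddCommGroup X] [NormedSpace ℝ X] (C : Set X) (f : X →L[ℝ] ℝ)
    (α : ℝ) : Set X := {x | x ∈ C ∧ sSup (f '' C) - α < f x}

/-- `x₀` is an almost preserved extreme point of `C`: every relatively weakly open subset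
`{x ∈ C | x ∈ U}` of `C` containing `x₀` contains a nonempty slice of `C`. -/
def IsAPEP {X : Type*} [NormedAddCommGroup X] [NormedSpace ℝ X] (C : Set X) (x₀ : X) : Prop :=
  x₀ ∈ C ∧ ∀ U : Set (WeakSpace ℝ X), IsOpen U → toWeakSpace ℝ X x₀ ∈ U →
    ∃ (f : X →L[ℝ] ℝ) (α : ℝ), 0 < α ∧ (slice C f α).Nonempty ∧
      slice C f α ⊆ {x | x ∈ C ∧ toWeakSpace ℝ X x ∈ U}

/-- The summands: Euclidean spaces of dimension `n + 1`. -/
abbrev E (n : ℕ) : Type := EuclideanSpace ℝ (Fin (n + 1))

lemma sSup_ball {X : Type*} [NormedAddCommGroup X] [NormedSpace ℝ X] (f : X →L[ℝ] ℝ) :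
    sSup (f '' Metric.closedBall 0 1) = ‖f‖ := by
  have hne : (f '' Metric.closedBall 0 1).Nonempty := ⟨_, 0, by simp, rfl⟩
  have hub : ∀ t ∈ f '' Metric.closedBall 0 1, t ≤ ‖f‖ := by
    rintro _ ⟨x, hx, rfl⟩
    rw [mem_closedBall_zero_iff] at hx
    refine (Real.le_norm_self _).trans ((f.le_opNorm x).trans ?_)
    nlinarith [norm_nonneg f]
  apply le_antisymm (csSup_le hne hub)
  refine le_of_forall_lt fun t ht => ?_
  by_cases h0 : t < 0
  · have : (0 : ℝ) ≤ sSup (f '' Metric.closedBall 0 1) :=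
      le_csSup ⟨_, hub⟩ ⟨0, by simp, map_zero f⟩
    linarith
  · push Not at h0
    obtain ⟨x, hx, hlt⟩ := f.exists_lt_apply_of_lt_opNorm ht
    have h1 : |f x| ≤ sSup (f '' Metric.closedBall 0 1) := by
      rcases abs_choice (f x) with h | h
      · rw [h]; exact le_csSup ⟨_, hub⟩ ⟨x, by simpa using hx.le, rfl⟩
      · rw [h]; exact le_csSup ⟨_, hub⟩ ⟨-x, by simpa using hx.le, map_neg f x⟩
    rw [Real.norm_eq_abs] at hlt
    linarith

/-- Zero is not an almost preserved extreme point of a finite-dimensional Euclidean ball. -/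
lemma not_apep (n : ℕ) : ¬ IsAPEP (Metric.closedBall (0 : E n) 1) 0 := by
  rintro ⟨-, h⟩
  let coord : Fin (n + 1) → (E n →L[ℝ] ℝ) := fun i => EuclideanSpace.proj i
  have hcoord : ∀ i x, coord i x = x i := fun i x => rfl
  set δ : ℝ := 1 / (2 * (n + 1)) with hδ
  have hδ0 : 0 < δ := by positivity
  let U : Set (WeakSpace ℝ (E n)) := ⋂ i, {y | |coord i ((toWeakSpace ℝ (E n)).symm y)| < δ}
  have hU : IsOpen U := isOpen_iInter_of_finite fun i =>
    isOpen_lt (continuous_eval (coord i)).abs continuous_const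
  obtain ⟨f, α, hα, -, hsub⟩ := h U hU (by
    simp only [U, Set.mem_iInter, Set.mem_ofPred_eq, map_zero, abs_zero]
    exact fun _ => hδ0)
  -- elements of `U` have norm at most `1/2`
  have hsmall : ∀ x : E n, toWeakSpace ℝ (E n) x ∈ U → ‖x‖ ≤ 1 / 2 := by
    intro x hx
    simp only [U, Set.mem_iInter, Set.mem_ofPred_eq, LinearEquiv.symm_apply_apply, hcoord] at hx
    have h1 : ‖x‖ ^ 2 ≤ (1 / 2) ^ 2 := by
      rw [EuclideanSpace.norm_sq_eq]
      calc ∑ i, ‖x i‖ ^ 2 ≤ ∑ i : Fin (n + 1), δ ^ 2 := by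
            apply Finset.sum_le_sum
            intro i _
            rw [Real.norm_eq_abs]
            exact pow_le_pow_left₀ (abs_nonneg _) (hx i).le 2
        _ = (n + 1) * δ ^ 2 := by simp
        _ ≤ (1 / 2) ^ 2 := by
          rw [hδ]
          have hn : (1 : ℝ) ≤ n + 1 := by
            have : (0 : ℝ) ≤ n := Nat.cast_nonneg n
            linarith
          have e : ((n : ℝ) + 1) * (1 / (2 * (n + 1))) ^ 2 = (1 / 2) ^ 2 / (n + 1) := by
            field_simp
          rw [e]
          exact div_le_self (by norm_num) hn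
    exact (pow_le_pow_iff_left₀ (norm_nonneg _) (by norm_num) two_ne_zero).1 h1
  -- the slice contains a vector of norm greater than `1/2`
  by_cases hf : ‖f‖ = 0
  · have hf0 : f = 0 := norm_eq_zero.1 hf
    obtain ⟨x, hx⟩ := exists_norm_eq (E n) (zero_le_one (α := ℝ))
    have h1 : x ∈ slice (Metric.closedBall (0 : E n) 1) f α := by
      refine ⟨by simp [hx], ?_⟩
      rw [sSup_ball, hf, hf0]
      simp [hα]
    have h2 := hsmall x (hsub h1).2
    rw [hx] at h2
    norm_num at h2
  · have hpos : 0 < ‖f‖ := lt_of_le_of_ne (norm_nonneg _) (Ne.symm hf)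
    obtain ⟨x, hx, hlt⟩ := f.exists_lt_apply_of_lt_opNorm
      (show max (‖f‖ - α) (‖f‖ / 2) < ‖f‖ from max_lt (by linarith) (by linarith))
    obtain ⟨y, hy, hlt2⟩ : ∃ y : E n, ‖y‖ < 1 ∧ max (‖f‖ - α) (‖f‖ / 2) < f y := by
      rw [Real.norm_eq_abs] at hlt
      rcases abs_choice (f x) with h | h
      · exact ⟨x, hx, by rwa [h] at hlt⟩
      · exact ⟨-x, by rwa [norm_neg], by rw [map_neg]; rwa [h] at hlt⟩
    have h1 : y ∈ slice (Metric.closedBall (0 : E n) 1) f α := by
      refine ⟨by simpa using hy.le, ?_⟩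
      rw [sSup_ball]
      exact (le_max_left _ _).trans_lt hlt2
    have h2 := hsmall y (hsub h1).2
    have h3 : ‖f‖ / 2 < ‖f‖ * ‖y‖ :=
      ((le_max_right _ _).trans_lt hlt2).trans_le ((Real.le_norm_self _).trans (f.le_opNorm y))
    nlinarith

/-- The `ℓ_1`-sum of the Euclidean spaces. -/
abbrev Z : Type := lp E 1

lemma norm_tail (x : Z) (n : ℕ) : ‖x - lp.single 1 n (x n)‖ = ‖x‖ - ‖x n‖ := by
  have h := lp.norm_compl_sum_single (E := E) (p := 1) (by norm_num) x {n}
  simpa using h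

/-- Zero is an almost preserved extreme point of the ball of the sum. -/
lemma apep_sum : IsAPEP (Metric.closedBall (0 : Z) 1) 0 := by
  classical
  refine ⟨by simp, fun U hU h0 => ?_⟩
  obtain ⟨F, ε, hε, hsub⟩ := exists_basic hU h0
  -- a component of large dimension and a unit vector killed by all functionals of `F`
  set n : ℕ := F.card with hn
  let incl : E n →ₗ[ℝ] Z :=
    { toFun := fun v => lp.single 1 n v
      map_add' := fun a b => lp.single_add 1 n a b
      map_smul' := fun c a => lp.single_smul 1 n c a }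
  let G : E n →ₗ[ℝ] (F → ℝ) := LinearMap.pi fun f => (f.1 : Z →ₗ[ℝ] ℝ).comp incl
  have hker : LinearMap.ker G ≠ ⊥ := by
    apply LinearMap.ker_ne_bot_of_finrank_lt
    simp [hn]
  obtain ⟨v₀, hv₀, hv₀ne⟩ := (Submodule.ne_bot_iff _).1 hker
  have hv₀n : ‖v₀‖ ≠ 0 := by simpa using hv₀ne
  set v : E n := ‖v₀‖⁻¹ • v₀ with hv
  have hvn : ‖v‖ = 1 := by
    rw [hv, norm_smul, norm_inv, norm_norm]
    exact inv_mul_cancel₀ hv₀n
  have hvF : ∀ f ∈ F, f (lp.single 1 n v) = 0 := by
    intro f hf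
    have h1 : G v₀ = 0 := hv₀
    have h2 := congrFun h1 ⟨f, hf⟩
    have h3 : f (lp.single 1 n v₀) = 0 := h2
    have h4 : (lp.single 1 n v : Z) = ‖v₀‖⁻¹ • lp.single 1 n v₀ := by
      rw [hv]; exact lp.single_smul 1 n _ _
    rw [h4, map_smul, h3, smul_zero]
  -- constants
  set M : ℝ := ∑ f ∈ F, ‖f‖ + 1 with hM
  have hM0 : 0 < M := by
    have : 0 ≤ ∑ f ∈ F, ‖f‖ := Finset.sum_nonneg fun _ _ => norm_nonneg _
    linarith
  have hfM : ∀ f ∈ F, ‖f‖ ≤ M := by
    intro f hf
    have := Finset.single_le_sum (f := fun f : Z →L[ℝ] ℝ => ‖f‖) (fun _ _ => norm_nonneg _) hf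
    linarith
  set η : ℝ := min 1 (ε / (2 * M)) with hη
  have hη0 : 0 < η := lt_min one_pos (by positivity)
  have hη1 : η ≤ 1 := min_le_left _ _
  have hηM : M * η ≤ ε / 2 := by
    have : η ≤ ε / (2 * M) := min_le_right _ _
    calc M * η ≤ M * (ε / (2 * M)) := mul_le_mul_of_nonneg_left this hM0.le
      _ = ε / 2 := by field_simp
  -- the functional
  let pn : Z →ₗ[ℝ] E n :=
    { toFun := fun x : Z => x n
      map_add' := fun _ _ => rfl
      map_smul' := fun _ _ => rfl }
  let φ : Z →L[ℝ] ℝ := (innerSL ℝ v).comp (pn.mkContinuous 1 (fun x => by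
      rw [one_mul]; exact lp.norm_apply_le_norm (by norm_num) x n))
  have hφ : ∀ x : Z, φ x = inner ℝ v (x n) := fun x => rfl
  have hφn : ‖φ‖ = 1 := by
    apply le_antisymm
    · refine ContinuousLinearMap.opNorm_le_bound _ zero_le_one fun x => ?_
      rw [hφ]
      refine (norm_inner_le_norm _ _).trans ?_
      rw [hvn]
      exact mul_le_mul_of_nonneg_left (lp.norm_apply_le_norm (by norm_num) x n) zero_le_one
    · have h1 := φ.le_opNorm (lp.single 1 n v)
      have h2 : ‖(lp.single 1 n v : Z)‖ = 1 := by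
        rw [lp.norm_single (by norm_num), hvn]
      have h3 : φ (lp.single 1 n v) = 1 := by
        rw [hφ, lp.single_apply_self, real_inner_self_eq_norm_sq, hvn]; norm_num
      rwa [h2, h3, mul_one, norm_one] at h1
  set α : ℝ := η ^ 2 / 8 with hα
  have hα0 : 0 < α := by positivity
  refine ⟨φ, α, hα0, ?_, ?_⟩
  · refine ⟨lp.single 1 n v, ?_, ?_⟩
    · rw [mem_closedBall_zero_iff, lp.norm_single (by norm_num), hvn]
    · rw [sSup_ball, hφn, hφ, lp.single_apply_self, real_inner_self_eq_norm_sq, hvn]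
      linarith
  · rintro x ⟨hx1, hx2⟩
    refine ⟨hx1, hsub x fun f hf => ?_⟩
    rw [map_zero, sub_zero]
    rw [mem_closedBall_zero_iff] at hx1
    rw [sSup_ball, hφn, hφ] at hx2
    -- the norm of `x n` and the tail
    have hxn : 1 - α < ‖x n‖ := by
      refine hx2.trans_le ((real_inner_le_norm _ _).trans ?_)
      rw [hvn, one_mul]
    have hxn1 : ‖x n‖ ≤ 1 := (lp.norm_apply_le_norm (by norm_num) x n).trans hx1
    have htail : ‖x - lp.single 1 n (x n)‖ ≤ α := by
      rw [norm_tail]; linarith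
    have hdist : ‖x n - v‖ ≤ η / 2 := by
      have h1 : ‖x n - v‖ ^ 2 ≤ (η / 2) ^ 2 := by
        rw [norm_sub_sq_real, hvn, real_inner_comm]
        have : ‖x n‖ ^ 2 ≤ 1 := pow_le_one₀ (norm_nonneg _) hxn1
        rw [hα] at hx2
        nlinarith
      exact (pow_le_pow_iff_left₀ (norm_nonneg _) (by positivity) two_ne_zero).1 h1
    have hxv : ‖x - lp.single 1 n v‖ ≤ η / 2 + α := by
      have e : x - lp.single 1 n v = (x - lp.single 1 n (x n)) + lp.single 1 n (x n - v) := by
        have : (lp.single 1 n (x n - v) : Z) = lp.single 1 n (x n) - lp.single 1 n v :=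
          lp.single_sub 1 n _ _
        rw [this]; abel
      rw [e]
      refine (norm_add_le _ _).trans ?_
      rw [lp.norm_single (by norm_num)]
      linarith
    have hαη : η / 2 + α ≤ η := by rw [hα]; nlinarith
    have e : f x = f (x - lp.single 1 n v) := by rw [map_sub, hvF f hf, sub_zero]
    rw [e]
    calc |f (x - lp.single 1 n v)| ≤ ‖f‖ * ‖x - lp.single 1 n v‖ := f.le_opNorm _
      _ ≤ M * η := mul_le_mul (hfM f hf) (hxv.trans hαη) (norm_nonneg _) hM0.le
      _ < ε := by linarith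

/-- **Negative answer to Q1**: there is a sequence of Banach spaces (Euclidean spaces of increasing
dimension) whose `ℓ_1`-sum has `0` as an almost preserved extreme point of its unit ball, while `0` is
not an almost preserved extreme point of the unit ball of any of the spaces. -/
theorem result : ∃ (E : ℕ → Type) (_ : ∀ i, NormedAddCommGroup (E i)) (_ : ∀ i, NormedSpace ℝ (E i))
    (_ : ∀ i, CompleteSpace (E i)),
    IsAPEP (Metric.closedBall (0 : lp E 1) 1) 0 ∧
    ∀ i, ¬ IsAPEP (Metric.closedBall (0 : E i) 1) 0 :=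
  ⟨E, inferInstance, inferInstance, inferInstance, apep_sum, not_apep⟩

end Pool.Agent.Results.MP_c12391_an.EuclideanSummands
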